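import Pool.Agent.V11332.PA3

/-!
# Property (A) does not imply unconditionality
-/

set_option autoImplicit false

namespace Pool.Agent.Results.MP_e9a5f2_an.ConditionalPropertyA

open Finset Filter Topology
open scoped ENNReal
open Pool.Agent.V11332.PA1

/-- `(e n)` with the functionals `(f n)` is a semi-normalized Markushevich basis of `X`. -/
structure IsMBasis (𝕜 : Type) [RCLike 𝕜] {X : Type} [NormedAddCommGroup X] [NormedSpace 𝕜 X]
    (e : ℕ → X) (f : ℕ → (X →L[𝕜] 𝕜)) : Prop where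
  /-- the closed linear span of the `e n` is the whole space -/
  dense_span : (Submodule.span 𝕜 (Set.range e)).topologicalClosure = ⊤
  /-- biorthogonality -/
  biorth : ∀ n j, f n (e j) = if n = j then 1 else 0
  /-- the functionals separate points -/
  separate : ∀ x, (∀ n, f n x = 0) → x = 0
  /-- semi-normalization -/
  bounded : ∃ C : ℝ, ∀ n, ‖e n‖ ≤ C ∧ ‖f n‖ ≤ C

/-- Property (A), the symmetry for largest coefficients. -/
def PropertyA (𝕜 : Type) [RCLike 𝕜] {X : Type} [NormedAddCommGroup X] [NormedSpace 𝕜 X]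
    (e : ℕ → X) (f : ℕ → (X →L[𝕜] 𝕜)) : Prop :=
  ∀ (x : X) (A B : Finset ℕ) (ε η : ℕ → 𝕜),
    (∀ n, f n x ≠ 0 → ‖f n x‖ ≤ 1) → A.card = B.card → Disjoint A B →
    (∀ n ∈ A ∪ B, f n x = 0) → (∀ n ∈ A, ‖ε n‖ = 1) → (∀ n ∈ B, ‖η n‖ = 1) →
    ‖x + ∑ n ∈ A, ε n • e n‖ = ‖x + ∑ n ∈ B, η n • e n‖

/-- Unconditionality: every `x` is the unconditional sum of its expansion (`HasSum` is
unconditional summation over `ℕ`). -/
def IsUnconditional (𝕜 : Type) [RCLike 𝕜] {X : Type} [NormedAddCommGroup X] [NormedSpace 𝕜 X]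
    (e : ℕ → X) (f : ℕ → (X →L[𝕜] 𝕜)) : Prop :=
  ∀ x : X, HasSum (fun n => f n x • e n) x

variable (𝕜 : Type) [RCLike 𝕜]

/-- The basis. -/
noncomputable def e (n : ℕ) : X 𝕜 := ⟨E 𝕜 n, E_mem 𝕜 n⟩

/-- The functionals. -/
noncomputable def f (n : ℕ) : X 𝕜 →L[𝕜] 𝕜 := (c 𝕜 n).comp (X 𝕜).subtypeL

lemma f_apply (n : ℕ) (x : X 𝕜) : f 𝕜 n x = c 𝕜 n (x : Y 𝕜) := rfl

lemma f_e (k n : ℕ) : f 𝕜 k (e 𝕜 n) = if k = n then 1 else 0 := by
  rw [f_apply]
  change c 𝕜 k (E 𝕜 n) = _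
  rw [c_E]
  by_cases h : k = n
  · subst h; simp
  · simp [h]

lemma V_le (x : X 𝕜) (A : Finset ℕ) (k M : ℕ) : V A k M (fun n => f 𝕜 n x) ≤ ‖x‖ :=
  V_le_norm 𝕜 x.2 A k M

lemma norm_le_V (x : X 𝕜) (C : ℝ) (h : ∀ A k M, V A k M (fun n => f 𝕜 n x) ≤ C) : ‖x‖ ≤ C :=
  norm_le_of_V 𝕜 x.2 C h

lemma f_sum (n : ℕ) (A : Finset ℕ) (ε : ℕ → 𝕜) :
    f 𝕜 n (∑ k ∈ A, ε k • e 𝕜 k) = if n ∈ A then ε n else 0 := by
  rw [map_sum]
  simp_rw [map_smul, f_e, smul_eq_mul, mul_ite, mul_one, mul_zero]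
  rw [Finset.sum_ite_eq]

theorem mbasis : IsMBasis 𝕜 (e 𝕜) (f 𝕜) where
  dense_span := by
    rw [eq_top_iff]
    rintro x -
    change x ∈ closure (Submodule.span 𝕜 (Set.range (e 𝕜)) : Set (X 𝕜))
    rw [closure_subtype]
    have h1 : ((↑) : X 𝕜 → Y 𝕜) '' (Submodule.span 𝕜 (Set.range (e 𝕜)) : Set (X 𝕜))
        = (Submodule.span 𝕜 (Set.range (E 𝕜)) : Set (Y 𝕜)) := by
      have h2 := Submodule.map_span (X 𝕜).subtype (Set.range (e 𝕜))
      have h3 : (X 𝕜).subtype '' (Set.range (e 𝕜)) = Set.range (E 𝕜) := by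
        rw [← Set.range_comp]; rfl
      rw [h3] at h2
      rw [← h2]
      rfl
    rw [h1]
    exact x.2
  biorth := f_e 𝕜
  separate := by
    intro x hx
    have h : ‖x‖ ≤ 0 := by
      apply norm_le_V
      intro A k M
      have : (fun n => f 𝕜 n x) = fun _ => (0 : 𝕜) := funext hx
      rw [this]
      simp [V]
    exact norm_le_zero_iff.1 h
  bounded := by
    refine ⟨3, fun n => ⟨?_, ?_⟩⟩
    · apply norm_le_V
      intro A k M
      have : (fun k => f 𝕜 k (e 𝕜 n)) = Pi.single n (1 : 𝕜) := by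
        ext k
        exact c_E 𝕜 k n
      rw [this]
      exact V_single 𝕜 n A k M
    · apply ContinuousLinearMap.opNorm_le_bound _ (by norm_num)
      intro x
      have h := V_le 𝕜 x {n} 0 0
      simp only [V, sum_singleton, range_zero, empty_sdiff, sum_empty, norm_zero, add_zero] at h
      rw [Real.sqrt_sq (norm_nonneg _)] at h
      have h2 := norm_nonneg (f 𝕜 n x)
      have h3 := norm_nonneg x
      linarith

lemma propA_le (x : X 𝕜) (A B : Finset ℕ) (ε η : ℕ → 𝕜)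
    (hx : ∀ n, f 𝕜 n x ≠ 0 → ‖f 𝕜 n x‖ ≤ 1) (hc : A.card = B.card)
    (h0 : ∀ n ∈ A ∪ B, f 𝕜 n x = 0) (hε : ∀ n ∈ A, ‖ε n‖ = 1) (hη : ∀ n ∈ B, ‖η n‖ = 1) :
    ‖x + ∑ n ∈ A, ε n • e 𝕜 n‖ ≤ ‖x + ∑ n ∈ B, η n • e 𝕜 n‖ := by
  apply norm_le_V
  intro S k M
  have hcoord : ∀ (T : Finset ℕ) (δ : ℕ → 𝕜), (fun n => f 𝕜 n (x + ∑ n ∈ T, δ n • e 𝕜 n))
      = fun n => f 𝕜 n x + if n ∈ T then δ n else 0 := by
    intro T δ
    ext n
    rw [map_add, f_sum]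
  rw [hcoord]
  have hx' : ∀ n, ‖f 𝕜 n x‖ ≤ 1 := by
    intro n
    by_cases h : f 𝕜 n x = 0
    · rw [h, norm_zero]; exact zero_le_one
    · exact hx n h
  obtain ⟨A', k', h⟩ := V_move (fun n => f 𝕜 n x) A B ε η hx'
    (fun n hn => h0 n (mem_union_left _ hn)) (fun n hn => h0 n (mem_union_right _ hn)) hc hε hη
    S k M
  refine h.trans ?_
  have h2 := V_le 𝕜 (x + ∑ n ∈ B, η n • e 𝕜 n) A' k' M
  rwa [hcoord] at h2

theorem propA : PropertyA 𝕜 (e 𝕜) (f 𝕜) := by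
  intro x A B ε η hx hc _ h0 hε hη
  refine le_antisymm (propA_le 𝕜 x A B ε η hx hc h0 hε hη)
    (propA_le 𝕜 x B A η ε hx hc.symm (fun n hn => h0 n ?_) hη hε)
  rwa [union_comm]

lemma V_trunc (A : Finset ℕ) (k M K : ℕ) (a : ℕ → 𝕜) :
    V A k M (fun n => if n ∈ range K then a n else 0) ≤ V A k (min M K) a := by
  unfold V
  have h1 : ∑ n ∈ A, ‖(if n ∈ range K then a n else 0)‖ ^ 2 ≤ ∑ n ∈ A, ‖a n‖ ^ 2 := by
    refine sum_le_sum fun n _ => ?_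
    split_ifs
    · exact le_rfl
    · rw [norm_zero, zero_pow two_ne_zero]; positivity
  have h2 : ∑ n ∈ range M \ A, ((w (A.card + k + n) : ℝ) : 𝕜) * (if n ∈ range K then a n else 0)
      = ∑ n ∈ range (min M K) \ A, ((w (A.card + k + n) : ℝ) : 𝕜) * a n := by
    simp_rw [mul_ite, mul_zero]
    rw [← sum_filter]
    refine sum_congr ?_ fun n _ => rfl
    ext n
    simp only [mem_filter, Finset.mem_sdiff, mem_range, lt_min_iff]
    tauto
  rw [h2]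
  have := Real.sqrt_le_sqrt h1
  linarith

/-- The partial sum projections have norm at most one. -/
theorem monotone_basis (x : X 𝕜) (K : ℕ) : ‖∑ n ∈ range K, f 𝕜 n x • e 𝕜 n‖ ≤ ‖x‖ := by
  apply norm_le_V
  intro A k M
  have h : (fun n => f 𝕜 n (∑ j ∈ range K, f 𝕜 j x • e 𝕜 j))
      = fun n => if n ∈ range K then f 𝕜 n x else 0 := by
    ext n
    exact f_sum 𝕜 n (range K) (fun j => f 𝕜 j x)
  rw [h]
  exact (V_trunc 𝕜 A k M K _).trans (V_le 𝕜 x A k (min M K))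

/-- Partial sums converge on the span. -/
lemma span_partial (y : X 𝕜) (hy : y ∈ Submodule.span 𝕜 (Set.range (e 𝕜))) :
    ∃ K0, ∀ K, K0 ≤ K → ∑ n ∈ range K, f 𝕜 n y • e 𝕜 n = y := by
  induction hy using Submodule.span_induction with
  | mem x hx =>
    obtain ⟨n, rfl⟩ := hx
    refine ⟨n + 1, fun K hK => ?_⟩
    simp_rw [f_e, ite_smul, one_smul, zero_smul]
    rw [Finset.sum_ite_eq' (range K) n (fun j => e 𝕜 j), if_pos (mem_range.2 (by omega))]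
  | zero => exact ⟨0, fun K _ => by simp⟩
  | add x y _ _ hx hy =>
    obtain ⟨K1, h1⟩ := hx
    obtain ⟨K2, h2⟩ := hy
    refine ⟨max K1 K2, fun K hK => ?_⟩
    simp_rw [map_add, add_smul]
    rw [sum_add_distrib, h1 K (le_of_max_le_left hK), h2 K (le_of_max_le_right hK)]
  | smul a x _ hx =>
    obtain ⟨K1, h1⟩ := hx
    refine ⟨K1, fun K hK => ?_⟩
    simp_rw [map_smul, smul_assoc]
    rw [← smul_sum, h1 K hK]

theorem schauder (x : X 𝕜) :
    Tendsto (fun K : ℕ => ∑ n ∈ range K, f 𝕜 n x • e 𝕜 n) atTop (𝓝 x) := by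
  rw [Metric.tendsto_atTop]
  intro δ hδ
  have hx : x ∈ closure (Submodule.span 𝕜 (Set.range (e 𝕜)) : Set (X 𝕜)) := by
    have := (mbasis 𝕜).dense_span
    have h2 : x ∈ (Submodule.span 𝕜 (Set.range (e 𝕜))).topologicalClosure := by
      rw [this]; trivial
    exact h2
  rw [Metric.mem_closure_iff] at hx
  obtain ⟨y, hy, hxy⟩ := hx (δ / 2) (by positivity)
  obtain ⟨K0, hK0⟩ := span_partial 𝕜 y hy
  refine ⟨K0, fun K hK => ?_⟩
  have h1 : ∑ n ∈ range K, f 𝕜 n x • e 𝕜 n - x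
      = ∑ n ∈ range K, f 𝕜 n (x - y) • e 𝕜 n + (y - x) := by
    simp_rw [map_sub, sub_smul]
    rw [sum_sub_distrib, hK0 K hK]
    abel
  rw [dist_eq_norm, h1]
  have h2 := monotone_basis 𝕜 (x - y) K
  rw [dist_eq_norm] at hxy
  have h3 : ‖y - x‖ < δ / 2 := by rw [norm_sub_rev]; exact hxy
  calc ‖∑ n ∈ range K, f 𝕜 n (x - y) • e 𝕜 n + (y - x)‖
      ≤ ‖∑ n ∈ range K, f 𝕜 n (x - y) • e 𝕜 n‖ + ‖y - x‖ := norm_add_le _ _
    _ < δ / 2 + δ / 2 := add_lt_add_of_le_of_lt (h2.trans hxy.le) h3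
    _ = δ := by ring

/-- Unconditionality gives a uniform bound for the coordinate projections. -/
lemma unif {X : Type} [NormedAddCommGroup X] [NormedSpace 𝕜 X] [CompleteSpace X]
    (e : ℕ → X) (f : ℕ → (X →L[𝕜] 𝕜)) (hunc : IsUnconditional 𝕜 e f) :
    ∃ C : ℝ, 0 ≤ C ∧ ∀ (F : Finset ℕ) (x : X), ‖∑ n ∈ F, f n x • e n‖ ≤ C * ‖x‖ := by
  classical
  set P : Finset ℕ → (X →L[𝕜] X) := fun F => ∑ n ∈ F, (f n).smulRight (e n) with hP
  have hPa : ∀ F x, P F x = ∑ n ∈ F, f n x • e n := by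
    intro F x
    simp [hP]
  have hbd : ∀ x : X, ∃ C, ∀ F : Finset ℕ, ‖P F x‖ ≤ C := by
    intro x
    have hs := (hunc x).summable
    rw [summable_iff_vanishing_norm] at hs
    obtain ⟨s, hs⟩ := hs 1 one_pos
    refine ⟨∑ n ∈ s, ‖f n x • e n‖ + 1, fun F => ?_⟩
    rw [hPa, ← sum_inter_add_sum_sdiff F s]
    refine (norm_add_le _ _).trans (add_le_add ?_ ?_)
    · refine (norm_sum_le _ _).trans ?_
      exact sum_le_sum_of_subset_of_nonneg inter_subset_right fun n _ _ => norm_nonneg _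
    · exact (hs (F \ s) sdiff_disjoint).le
  obtain ⟨C, hC⟩ := banach_steinhaus hbd
  refine ⟨C, (norm_nonneg _).trans (hC ∅), fun F x => ?_⟩
  rw [← hPa]
  exact (ContinuousLinearMap.le_opNorm _ _).trans
    (mul_le_mul_of_nonneg_right (hC F) (norm_nonneg x))

/-- The basis is conditional. -/
theorem conditional [CompleteSpace (X 𝕜)] : ¬ IsUnconditional 𝕜 (e 𝕜) (f 𝕜) := by
  classical
  intro hunc
  obtain ⟨C, hC0, hC⟩ := unif 𝕜 (e 𝕜) (f 𝕜) hunc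
  apply no_const C
  intro J
  set F : Finset ℕ := (range (2 * J)).filter (fun n => Even n) with hF
  set x : X 𝕜 := ∑ n ∈ range (2 * J), ((xv (2 * J) n : ℝ) : 𝕜) • e 𝕜 n with hx
  have hcoord : (fun n => f 𝕜 n x) = fun n => ((xv (2 * J) n : ℝ) : 𝕜) := by
    ext n
    rw [hx, f_sum 𝕜 n (range (2 * J)) (fun n => ((xv (2 * J) n : ℝ) : 𝕜))]
    split_ifs with h
    · rfl
    · rw [mem_range] at h
      simp [xv, h]
  have h1 : ‖x‖ ≤ 2 * Real.sqrt (hs (2 * J)) + 2 := by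
    apply norm_le_V
    intro A k M
    rw [hcoord]
    exact V_test (2 * J) A k M
  have hcoord2 : (fun n => f 𝕜 n (∑ j ∈ F, f 𝕜 j x • e 𝕜 j))
      = fun n => if Even n then ((xv (2 * J) n : ℝ) : 𝕜) else 0 := by
    ext n
    rw [f_sum 𝕜 n F (fun n => f 𝕜 n x)]
    have h2 : f 𝕜 n x = ((xv (2 * J) n : ℝ) : 𝕜) := congrFun hcoord n
    rw [h2]
    by_cases hn : n < 2 * J
    · by_cases he : Even n
      · rw [if_pos (mem_filter.2 ⟨mem_range.2 hn, he⟩), if_pos he]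
      · rw [if_neg (fun h => he (mem_filter.1 h).2), if_neg he]
    · have h3 : ((xv (2 * J) n : ℝ) : 𝕜) = 0 := by simp [xv, hn]
      rw [h3]
      simp
  have h2 : hs (2 * J) / 4 ≤ ‖∑ j ∈ F, f 𝕜 j x • e 𝕜 j‖ := by
    have h3 := V_le 𝕜 (∑ j ∈ F, f 𝕜 j x • e 𝕜 j) ∅ 0 (2 * J)
    rw [hcoord2] at h3
    exact (V_even J).trans h3
  calc hs (2 * J) / 4 ≤ ‖∑ j ∈ F, f 𝕜 j x • e 𝕜 j‖ := h2
    _ ≤ C * ‖x‖ := hC F x
    _ ≤ C * (2 * Real.sqrt (hs (2 * J)) + 2) := mul_le_mul_of_nonneg_left h1 hC0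

/-- **Property (A) does not imply unconditionality.** Over `ℝ` and over `ℂ` there is a Banach
space with a semi-normalized Markushevich basis, even a monotone Schauder basis, that has
Property (A) and is not unconditional. -/
theorem result (𝕜 : Type) [RCLike 𝕜] :
    ∃ (X : Type) (_ : NormedAddCommGroup X) (_ : NormedSpace 𝕜 X) (_ : CompleteSpace X)
      (e : ℕ → X) (f : ℕ → (X →L[𝕜] 𝕜)),
      IsMBasis 𝕜 e f ∧ PropertyA 𝕜 e f ∧
      (∀ (x : X) (K : ℕ), ‖∑ n ∈ range K, f n x • e n‖ ≤ ‖x‖) ∧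
      (∀ x : X, Tendsto (fun K : ℕ => ∑ n ∈ range K, f n x • e n) atTop (𝓝 x)) ∧
      ¬ IsUnconditional 𝕜 e f := by
  have hcs : CompleteSpace (X 𝕜) :=
    (Submodule.isClosed_topologicalClosure (Submodule.span 𝕜 (Set.range (E 𝕜)))).completeSpace_coe
  exact ⟨X 𝕜, inferInstance, inferInstance, hcs, e 𝕜, f 𝕜, mbasis 𝕜, propA 𝕜,
    monotone_basis 𝕜, schauder 𝕜, conditional 𝕜⟩

end Pool.Agent.Results.MP_e9a5f2_an.ConditionalPropertyA
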